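import Mathlib

/-!
# Small wheels are geodesic Leech graphs

The problem asks whether no wheel `W_n` with `n ≥ 7` is a geodesic Leech graph.
We exhibit geodesic Leech labelings of `W_7`, `W_8`, `W_9` and `W_10`.
-/

namespace Pool.Agent.Results.MP_071a69_co.WheelLeech

open SimpleGraph

/-- The geodesic paths of `G` (paths with at least one edge whose length is the distance of
their endpoints), each given by its set of edges, so that a path and its reverse count once. -/
def geodesicPaths {V : Type} [DecidableEq V] (G : SimpleGraph V) : Set (Finset (Sym2 V)) :=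
  {P | ∃ (u v : V) (p : G.Walk u v), p.IsPath ∧ 1 ≤ p.length ∧ p.length = G.dist u v ∧
    P = p.edges.toFinset}

/-- The geodesic path number. -/
noncomputable def tgp {V : Type} [DecidableEq V] (G : SimpleGraph V) : ℕ :=
  (geodesicPaths G).ncard

/-- `f` is a geodesic Leech labeling of `G`: positive labels on the edges such that the set of
weights of the geodesic paths is `{1, …, tgp G}`. -/
def IsGeodesicLeechLabeling {V : Type} [DecidableEq V] (G : SimpleGraph V)
    (f : Sym2 V → ℕ) : Prop :=
  (∀ e ∈ G.edgeSet, 1 ≤ f e) ∧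
    {w | ∃ P ∈ geodesicPaths G, w = ∑ e ∈ P, f e} = Set.Icc 1 (tgp G)

/-- `G` is a geodesic Leech graph. -/
def IsGeodesicLeech {V : Type} [DecidableEq V] (G : SimpleGraph V) : Prop :=
  ∃ f : Sym2 V → ℕ, IsGeodesicLeechLabeling G f

/-- The wheel `W_n` on `n` vertices: the cycle `C_{n-1}` on `Fin (n-1)` and a hub `none`
joined to every vertex of the cycle. -/
def wheel (n : ℕ) : SimpleGraph (Option (Fin (n - 1))) where
  Adj
    | none, none => False
    | none, some _ => True
    | some _, none => True
    | some i, some j => (cycleGraph (n - 1)).Adj i j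
  symm := ⟨by
    intro a b h
    cases a <;> cases b <;> simp_all
    exact h.symm⟩
  loopless := ⟨by
    intro a h
    cases a <;> simp_all⟩

instance (n : ℕ) : DecidableRel (wheel n).Adj := fun a b =>
  match a, b with
  | none, none => isFalse (fun h => h)
  | none, some _ => isTrue trivial
  | some _, none => isTrue trivial
  | some i, some j => inferInstanceAs (Decidable ((cycleGraph (n - 1)).Adj i j))

section general

variable {V : Type} [DecidableEq V] (G : SimpleGraph V)

/-- In a graph with a universal vertex `c`, the geodesic paths are the single edges and the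
paths of length two joining non-adjacent vertices. -/
theorem geodesicPaths_eq (c : V) (hc : ∀ v, v ≠ c → G.Adj c v) :
    geodesicPaths G = {P | ∃ x y, G.Adj x y ∧ P = {s(x, y)}} ∪
      {P | ∃ x y z, G.Adj x y ∧ G.Adj y z ∧ x ≠ z ∧ ¬ G.Adj x z ∧ P = {s(x, y), s(y, z)}} := by
  have hdist : ∀ u v, G.dist u v ≤ 2 := by
    intro u v
    by_cases hu : u = c
    · by_cases hv : v = c
      · subst hu; subst hv; simp
      · subst hu
        have := (SimpleGraph.dist_le (Walk.cons (hc v hv) Walk.nil))
        simp at this
        omega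
    · by_cases hv : v = c
      · subst hv
        have := (SimpleGraph.dist_le (Walk.cons (hc u hu).symm Walk.nil))
        simp at this
        omega
      · have := (SimpleGraph.dist_le (Walk.cons (hc u hu).symm (Walk.cons (hc v hv) Walk.nil)))
        simpa using this
  ext P
  constructor
  · rintro ⟨u, v, p, hp, h1, hlen, rfl⟩
    have h2 : p.length ≤ 2 := hlen ▸ hdist u v
    cases p with
    | nil => simp at h1
    | @cons _ w _ h q =>
      cases q with
      | nil =>
        left
        exact ⟨u, v, h, by simp⟩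
      | @cons _ w' _ h' q' =>
        cases q' with
        | nil =>
          right
          refine ⟨u, w, v, h, h', ?_, ?_, by simp⟩
          · rintro rfl
            simp at hlen
          · intro hadj
            have := SimpleGraph.dist_le (Walk.cons hadj Walk.nil)
            rw [← hlen] at this
            simp at this
        | cons _ _ =>
          simp at h2
  · rintro (⟨x, y, h, rfl⟩ | ⟨x, y, z, h, h', hne, hna, rfl⟩)
    · refine ⟨x, y, Walk.cons h Walk.nil, ?_, by simp, ?_, by simp⟩
      · simp [h.ne]
      · simp [SimpleGraph.dist_eq_one_iff_adj.mpr h]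
    · refine ⟨x, z, Walk.cons h (Walk.cons h' Walk.nil), ?_, by simp, ?_, by simp⟩
      · simp [h.ne, h'.ne, hne]
      · have hle := hdist x z
        have h0 : G.dist x z ≠ 0 := by
          intro h0
          rcases SimpleGraph.dist_eq_zero_iff_eq_or_not_reachable.mp h0 with h1 | h1
          · exact hne h1
          · exact h1 ⟨Walk.cons h (Walk.cons h' Walk.nil)⟩
        have h1 : G.dist x z ≠ 1 := fun h1 => hna (SimpleGraph.dist_eq_one_iff_adj.mp h1)
        simp
        omega

end general

/-- The finset of geodesic paths of a finite graph with a universal vertex. -/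
def gp {V : Type} [DecidableEq V] [Fintype V] (G : SimpleGraph V) [DecidableRel G.Adj] :
    Finset (Finset (Sym2 V)) :=
  ((Finset.univ.filter fun q : V × V => G.Adj q.1 q.2).image fun q => {s(q.1, q.2)}) ∪
  ((Finset.univ.filter fun q : V × V × V => G.Adj q.1 q.2.1 ∧ G.Adj q.2.1 q.2.2 ∧
    q.1 ≠ q.2.2 ∧ ¬ G.Adj q.1 q.2.2).image fun q => {s(q.1, q.2.1), s(q.2.1, q.2.2)})

theorem coe_gp {V : Type} [DecidableEq V] [Fintype V] (G : SimpleGraph V) [DecidableRel G.Adj]
    (c : V) (hc : ∀ v, v ≠ c → G.Adj c v) : (gp G : Set (Finset (Sym2 V))) = geodesicPaths G := by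
  rw [geodesicPaths_eq G c hc]
  ext P
  simp only [gp, Finset.coe_union, Finset.coe_image, Finset.coe_filter, Finset.mem_univ,
    true_and, Set.mem_union, Set.mem_image, Set.mem_ofPred_eq, Prod.exists]
  constructor
  · rintro (⟨x, y, h, rfl⟩ | ⟨x, y, z, ⟨h1, h2, h3, h4⟩, rfl⟩)
    · exact Or.inl ⟨x, y, h, rfl⟩
    · exact Or.inr ⟨x, y, z, h1, h2, h3, h4, rfl⟩
  · rintro (⟨x, y, h, rfl⟩ | ⟨x, y, z, h1, h2, h3, h4, rfl⟩)
    · exact Or.inl ⟨x, y, h, rfl⟩
    · exact Or.inr ⟨x, y, z, ⟨h1, h2, h3, h4⟩, rfl⟩

theorem isLeech_of_gp {V : Type} [DecidableEq V] [Fintype V] (G : SimpleGraph V)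
    [DecidableRel G.Adj] (c : V) (hc : ∀ v, v ≠ c → G.Adj c v) (f : Sym2 V → ℕ)
    (hf : ∀ x y, G.Adj x y → 1 ≤ f s(x, y))
    (h : (gp G).image (fun P => ∑ e ∈ P, f e) = Finset.Icc 1 (gp G).card) :
    IsGeodesicLeech G := by
  refine ⟨f, ?_, ?_⟩
  · intro e he
    induction e using Sym2.ind with
    | _ x y => exact hf x y he
  · have h1 : tgp G = (gp G).card := by
      rw [tgp, ← coe_gp G c hc, Set.ncard_coe_finset]
    rw [h1, ← Finset.coe_Icc, ← h, ← coe_gp G c hc]
    ext w
    simp [eq_comm]

/-- The labeling of a wheel with given spoke labels `a` and rim labels `r`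
(`r i` is the label of the rim edge `{i, i+1}`). -/
def lab {m : ℕ} (a r : Fin (m + 1) → ℕ) (e : Sym2 (Option (Fin (m + 1)))) : ℕ :=
  (∑ i, if e = s(none, some i) then a i else 0) +
    ∑ i, if e = s(some i, some (i + 1)) then r i else 0

theorem wheel7 : IsGeodesicLeech (wheel 7) := by
  refine isLeech_of_gp (wheel 7) none ?_ (lab (m := 5) ![1, 7, 2, 8, 11, 19] ![4, 10, 6, 17, 5, 20]) ?_ ?_
  · intro v hv
    cases v with
    | none => exact absurd rfl hv
    | some i => trivial
  · decide +kernel
  · decide +kernel

theorem wheel8 : IsGeodesicLeech (wheel 8) := by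
  refine isLeech_of_gp (wheel 8) none ?_
    (lab (m := 6) ![1, 16, 2, 11, 4, 13, 19] ![7, 18, 10, 22, 9, 8, 26]) ?_ ?_
  · intro v hv
    cases v with
    | none => exact absurd rfl hv
    | some i => trivial
  · decide +kernel
  · decide +kernel

theorem wheel9 : IsGeodesicLeech (wheel 9) := by
  refine isLeech_of_gp (wheel 9) none ?_
    (lab (m := 7) ![1, 15, 2, 16, 4, 26, 8, 18] ![7, 29, 11, 21, 14, 25, 13, 30]) ?_ ?_
  · intro v hv
    cases v with
    | none => exact absurd rfl hv
    | some i => trivial
  · decide +kernel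
  · decide +kernel

theorem wheel10 : IsGeodesicLeech (wheel 10) := by
  refine isLeech_of_gp (wheel 10) none ?_
    (lab (m := 8) ![1, 13, 2, 14, 4, 8, 32, 39, 16] ![7, 19, 25, 12, 38, 11, 31, 23, 28]) ?_ ?_
  · intro v hv
    cases v with
    | none => exact absurd rfl hv
    | some i => trivial
  · decide +kernel
  · decide +kernel

/-- The wheels `W_7`, `W_8`, `W_9`, `W_10` are geodesic Leech graphs. -/
theorem result : ∀ n, 7 ≤ n → n ≤ 10 → IsGeodesicLeech (wheel n) := by
  intro n h1 h2
  interval_cases n
  · exact wheel7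
  · exact wheel8
  · exact wheel9
  · exact wheel10

end Pool.Agent.Results.MP_071a69_co.WheelLeech
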